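import Pool.Agent.EGF.StmtsS

/-! EGF block S, row MA4 (helper3): composition of STC and CL4. -/

set_option autoImplicit false

open Finset

namespace Pool.Agent.EGF.H3

theorem ma4 (hS : StcStmt) (hC : Cl4Stmt) : Ma4Stmt := by
  intro θ h0 h1
  obtain ⟨L, hL, hs⟩ := hS θ h0 h1
  obtain ⟨s0, a0, k1, hk1⟩ := hC (θ / 8) L (by positivity) (by linarith) hL
  obtain ⟨k2, hk2⟩ := hs s0 s0 a0 a0
  refine ⟨max k1 k2, ?_⟩
  intro k hk V _ c W sym no3 no4 hW
  obtain ⟨W', hsub, hne, f0, _, hp, hq⟩ :=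
    hk2 k (le_trans (le_max_right _ _) hk) V c W sym no4 hW
  refine hk1 k (le_trans (le_max_left _ _) hk) V c W' sym ?_ ?_ f0 hp hq hne
  · intro x hx y hy z hz
    exact no3 x (hsub hx) y (hsub hy) z (hsub hz)
  · intro x hx x' hx' y hy y' hy'
    exact no4 x (hsub hx) x' (hsub hx') y (hsub hy) y' (hsub hy')

end Pool.Agent.EGF.H3
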